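import Mathlib

/-!
# Finite generation over `F⟦W⟧` and regularity of `W`

`S` is a commutative `F`-algebra, `π : S⟦W⟧ → A` is surjective.  If modulo the constant terms of
finitely many elements `g_l` of the kernel, `S` is generated over `F` by finitely many elements
`e_i`, then `A` is generated over `F⟦W⟧` by the images of the `e_i`.
-/

set_option autoImplicit false

namespace Pool.Agent.DU5.TE

namespace FGT63

variable {F S : Type*} [Field F] [CommRing S] [Algebra F S]

/-- the inclusion of `F⟦W⟧` in `S⟦W⟧` -/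
noncomputable def inc (F S : Type*) [Field F] [CommRing S] [Algebra F S] :
    PowerSeries F →+* PowerSeries S := PowerSeries.map (algebraMap F S)

theorem decomp {ι κ : Type*} [Fintype ι] [Fintype κ] (e : ι → S) (g : κ → PowerSeries S)
    (h : ∀ s : S, ∃ (c : ι → F) (b : κ → S),
      s = ∑ i, algebraMap F S (c i) * e i + ∑ l, b l * PowerSeries.constantCoeff (g l))
    (G : PowerSeries S) :
    ∃ (cc : ι → PowerSeries F) (bb : κ → PowerSeries S),
      G = ∑ i, inc F S (cc i) * PowerSeries.C (e i) + ∑ l, bb l * g l := by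
  choose c b hcb using h
  -- the step
  have step : ∀ H : PowerSeries S, ∃ H' : PowerSeries S,
      H = ∑ i, PowerSeries.C (algebraMap F S (c (PowerSeries.constantCoeff H) i)) *
        PowerSeries.C (e i) + ∑ l, PowerSeries.C (b (PowerSeries.constantCoeff H) l) * g l +
        PowerSeries.X * H' := by
    intro H
    have h1 : PowerSeries.X ∣ H - (∑ i, PowerSeries.C (algebraMap F S
        (c (PowerSeries.constantCoeff H) i)) * PowerSeries.C (e i) +
        ∑ l, PowerSeries.C (b (PowerSeries.constantCoeff H) l) * g l) := by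
      rw [PowerSeries.X_dvd_iff, map_sub, map_add, map_sum, map_sum]
      simp only [map_mul, PowerSeries.constantCoeff_C]
      rw [sub_eq_zero]
      exact hcb _
    obtain ⟨H', hH'⟩ := h1
    exact ⟨H', by rw [← hH']; ring⟩
  choose nx hnx using step
  let Gs : ℕ → PowerSeries S := fun j => Nat.rec G (fun _ H => nx H) j
  have hGs0 : Gs 0 = G := rfl
  have hGs1 : ∀ j, Gs (j + 1) = nx (Gs j) := fun j => rfl
  let c' : ℕ → ι → F := fun j => c (PowerSeries.constantCoeff (Gs j))
  let b' : ℕ → κ → S := fun j => b (PowerSeries.constantCoeff (Gs j))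
  let cs : ℕ → ι → PowerSeries F := fun j i => PowerSeries.mk fun m => c' (j + m) i
  let bs : ℕ → κ → PowerSeries S := fun j l => PowerSeries.mk fun m => b' (j + m) l
  have hcs : ∀ j i, cs j i = PowerSeries.C (c' j i) + PowerSeries.X * cs (j + 1) i := by
    intro j i
    ext m
    rcases m with _ | m
    · simp [cs]
    · rw [map_add, PowerSeries.coeff_succ_X_mul, PowerSeries.coeff_C,
        if_neg (Nat.succ_ne_zero m), zero_add]
      show PowerSeries.coeff (m + 1) (PowerSeries.mk fun m' => c' (j + m') i) =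
        PowerSeries.coeff m (PowerSeries.mk fun m' => c' (j + 1 + m') i)
      rw [PowerSeries.coeff_mk, PowerSeries.coeff_mk, show j + (m + 1) = j + 1 + m by omega]
  have hbs : ∀ j l, bs j l = PowerSeries.C (b' j l) + PowerSeries.X * bs (j + 1) l := by
    intro j l
    ext m
    rcases m with _ | m
    · simp [bs]
    · rw [map_add, PowerSeries.coeff_succ_X_mul, PowerSeries.coeff_C,
        if_neg (Nat.succ_ne_zero m), zero_add]
      show PowerSeries.coeff (m + 1) (PowerSeries.mk fun m' => b' (j + m') l) =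
        PowerSeries.coeff m (PowerSeries.mk fun m' => b' (j + 1 + m') l)
      rw [PowerSeries.coeff_mk, PowerSeries.coeff_mk, show j + (m + 1) = j + 1 + m by omega]
  let D : ℕ → PowerSeries S := fun j => Gs j - (∑ i, inc F S (cs j i) * PowerSeries.C (e i) +
    ∑ l, bs j l * g l)
  have hD : ∀ j, D j = PowerSeries.X * D (j + 1) := by
    intro j
    have e1 : ∑ i, inc F S (cs j i) * PowerSeries.C (e i) =
        ∑ i, PowerSeries.C (algebraMap F S (c' j i)) * PowerSeries.C (e i) +
          PowerSeries.X * ∑ i, inc F S (cs (j + 1) i) * PowerSeries.C (e i) := by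
      rw [Finset.mul_sum, ← Finset.sum_add_distrib]
      refine Finset.sum_congr rfl fun i _ => ?_
      rw [hcs j i, map_add, map_mul]
      have e2 : inc F S (PowerSeries.C (c' j i)) = PowerSeries.C (algebraMap F S (c' j i)) :=
        PowerSeries.map_C _ _
      have e3 : inc F S PowerSeries.X = PowerSeries.X := PowerSeries.map_X _
      rw [e2, e3]
      ring
    have e4 : ∑ l, bs j l * g l = ∑ l, PowerSeries.C (b' j l) * g l +
          PowerSeries.X * ∑ l, bs (j + 1) l * g l := by
      rw [Finset.mul_sum, ← Finset.sum_add_distrib]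
      refine Finset.sum_congr rfl fun l _ => ?_
      rw [hbs j l]
      ring
    have e5 := hnx (Gs j)
    show Gs j - (∑ i, inc F S (cs j i) * PowerSeries.C (e i) + ∑ l, bs j l * g l) =
      PowerSeries.X * (Gs (j + 1) - (∑ i, inc F S (cs (j + 1) i) * PowerSeries.C (e i) +
        ∑ l, bs (j + 1) l * g l))
    rw [e1, e4, hGs1]
    nth_rewrite 1 [e5]
    ring
  have hDN : ∀ N, D 0 = PowerSeries.X ^ N * D N := by
    intro N
    induction N with
    | zero => simp
    | succ N ih => rw [ih, hD N, pow_succ]; ring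
  have hD0 : D 0 = 0 := by
    ext N
    rw [hDN (N + 1), PowerSeries.coeff_X_pow_mul', if_neg (by omega), map_zero]
  refine ⟨cs 0, bs 0, ?_⟩
  have h6 : Gs 0 - (∑ i, inc F S (cs 0 i) * PowerSeries.C (e i) + ∑ l, bs 0 l * g l) = 0 := hD0
  rw [hGs0, sub_eq_zero] at h6
  exact h6

/-- FGT: finite generation -/
theorem span_eq_top {A : Type*} [CommRing A] [Algebra (PowerSeries F) A] {ι κ : Type*}
    [Fintype ι] [Fintype κ] (e : ι → S) (g : κ → PowerSeries S)
    (h : ∀ s : S, ∃ (c : ι → F) (b : κ → S),
      s = ∑ i, algebraMap F S (c i) * e i + ∑ l, b l * PowerSeries.constantCoeff (g l))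
    (π : PowerSeries S →+* A) (hπ : Function.Surjective π) (hg : ∀ l, π (g l) = 0)
    (hc : ∀ c : PowerSeries F, π (inc F S c) = algebraMap (PowerSeries F) A c) :
    Submodule.span (PowerSeries F) (Set.range fun i => π (PowerSeries.C (e i))) = ⊤ := by
  rw [eq_top_iff]
  intro a _
  obtain ⟨G, rfl⟩ := hπ a
  obtain ⟨cc, bb, hG⟩ := decomp e g h G
  rw [hG, map_add, map_sum, map_sum]
  have h1 : ∑ l, π (bb l * g l) = 0 :=
    Finset.sum_eq_zero fun l _ => by rw [map_mul, hg l, mul_zero]
  rw [h1, add_zero]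
  refine Submodule.sum_mem _ fun i _ => ?_
  rw [map_mul, hc, ← Algebra.smul_def]
  exact Submodule.smul_mem _ _ (Submodule.subset_span ⟨i, rfl⟩)

/-- TF: `W` is not a zero divisor modulo `(g1, g2)` -/
theorem regular {S : Type*} [CommRing S] (g1 g2 : PowerSeries S)
    (h1 : ∀ s : S, s * PowerSeries.constantCoeff g1 = 0 → s = 0)
    (h2 : ∀ s t : S, s * PowerSeries.constantCoeff g2 = t * PowerSeries.constantCoeff g1 →
      ∃ v, s = v * PowerSeries.constantCoeff g1)
    (G : PowerSeries S) (hG : PowerSeries.X * G ∈ Ideal.span {g1, g2}) :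
    G ∈ Ideal.span {g1, g2} := by
  rw [Ideal.mem_span_pair] at hG ⊢
  obtain ⟨a, b, hab⟩ := hG
  have e1 := congrArg PowerSeries.constantCoeff hab
  rw [map_add, map_mul, map_mul, map_mul, PowerSeries.constantCoeff_X, zero_mul] at e1
  obtain ⟨v, hv⟩ := h2 (PowerSeries.constantCoeff b) (-PowerSeries.constantCoeff a) (by
    linear_combination e1)
  have e2 : PowerSeries.constantCoeff a + v * PowerSeries.constantCoeff g2 = 0 := by
    apply h1
    rw [hv] at e1
    linear_combination e1
  -- `b - v g1` and `a + v g2` are divisible by `W`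
  have d1 : PowerSeries.X ∣ b - PowerSeries.C v * g1 := by
    rw [PowerSeries.X_dvd_iff, map_sub, map_mul, PowerSeries.constantCoeff_C, ← hv, sub_self]
  have d2 : PowerSeries.X ∣ a + PowerSeries.C v * g2 := by
    rw [PowerSeries.X_dvd_iff, map_add, map_mul, PowerSeries.constantCoeff_C, e2]
  obtain ⟨b', hb'⟩ := d1
  obtain ⟨a', ha'⟩ := d2
  refine ⟨a', b', ?_⟩
  have e3 : PowerSeries.X * (a' * g1 + b' * g2) = PowerSeries.X * G := by
    rw [← hab]
    linear_combination -g1 * ha' - g2 * hb'
  exact PowerSeries.X_mul_cancel e3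

/-- TF for one element -/
theorem regular_one {S : Type*} [CommRing S] (g1 : PowerSeries S)
    (h1 : ∀ s : S, s * PowerSeries.constantCoeff g1 = 0 → s = 0)
    (G : PowerSeries S) (hG : PowerSeries.X * G ∈ Ideal.span {g1}) :
    G ∈ Ideal.span {g1} := by
  rw [Ideal.mem_span_singleton'] at hG ⊢
  obtain ⟨a, ha⟩ := hG
  have e1 := congrArg PowerSeries.constantCoeff ha
  rw [map_mul, map_mul, PowerSeries.constantCoeff_X, zero_mul] at e1
  have d1 : PowerSeries.X ∣ a := by
    rw [PowerSeries.X_dvd_iff]
    exact h1 _ e1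
  obtain ⟨a', ha'⟩ := d1
  refine ⟨a', PowerSeries.X_mul_cancel ?_⟩
  rw [← ha, ha']
  ring

end FGT63

end Pool.Agent.DU5.TE
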