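import Mathlib

/-!
# The engine of the chapter TE

`L` is a domain, `A` a commutative `L`-algebra generated by `X`, `Y` which are roots of products of
linear factors over `L`.  If `χ u ∣ χ w`, `χ w ≠ 0` for every `L`-algebra homomorphism
`χ : A → L` then the length of `M / u M` is at most the length of `M / w M` for every finite
`L`-torsion-free `A`-module `M`.
-/

set_option autoImplicit false

namespace Pool.Agent.DU5.TE

namespace GT63

section ev

variable {L A M : Type*} [CommRing L] [CommRing A] [Algebra L A] [AddCommGroup M]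
  [Module A M] [Module L M] [IsScalarTower L A M]

/-- a product of linear factors which kills a nonzero vector has an eigenvector in the submodule
generated by this vector -/
theorem exists_eigen (X : A) {r : ℕ} (η : Fin r → L)
    (h : ∏ i, (X - algebraMap L A (η i)) = 0) (N : Submodule A M) (hN : N ≠ ⊥) :
    ∃ i, ∃ v ∈ N, v ≠ 0 ∧ X • v = η i • v := by
  by_contra hcon
  push Not at hcon
  obtain ⟨v, hv, hv0⟩ := (Submodule.ne_bot_iff N).1 hN
  have key : ∀ s : Finset (Fin r), (∏ i ∈ s, (X - algebraMap L A (η i))) • v ≠ 0 := by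
    intro s
    classical
    induction s using Finset.induction_on with
    | empty => simpa using hv0
    | insert i s hi ih =>
      rw [Finset.prod_insert hi, mul_smul]
      intro h0
      rw [sub_smul, algebraMap_smul, sub_eq_zero] at h0
      exact hcon i _ (N.smul_mem _ hv) ih h0
  have := key Finset.univ
  rw [h, zero_smul] at this
  exact this rfl

/-- the vectors on which `X`, `Y` act as the scalars `a`, `b` -/
def eig (A : Type*) [CommRing A] {L M : Type*} [CommRing L] [Algebra L A] [AddCommGroup M]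
    [Module A M] [Module L M] [IsScalarTower L A M] (X Y : A) (a b : L) : Submodule A M where
  carrier := {m | X • m = a • m ∧ Y • m = b • m}
  zero_mem' := by simp
  add_mem' := by
    rintro m n ⟨h1, h2⟩ ⟨h3, h4⟩
    exact ⟨by rw [smul_add, smul_add, h1, h3], by rw [smul_add, smul_add, h2, h4]⟩
  smul_mem' := by
    rintro c m ⟨h1, h2⟩
    constructor
    · rw [← algebraMap_smul A a (c • m), smul_comm X c m, h1, smul_comm _ c m, algebraMap_smul]
    · rw [← algebraMap_smul A b (c • m), smul_comm Y c m, h2, smul_comm _ c m, algebraMap_smul]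

theorem exists_eig (X Y : A) {r s : ℕ} (η : Fin r → L) (ζ : Fin s → L)
    (hη : ∏ i, (X - algebraMap L A (η i)) = 0) (hζ : ∏ j, (Y - algebraMap L A (ζ j)) = 0)
    (N : Submodule A M) (hN : N ≠ ⊥) :
    ∃ (a b : L), ∃ v ∈ N, v ≠ 0 ∧ v ∈ eig A X Y a b := by
  obtain ⟨i, v, hv, hv0, h1⟩ := exists_eigen X η hη N hN
  obtain ⟨N', hN'⟩ : ∃ N' : Submodule A M, N' = eig A X X (η i) (η i) ⊓ N := ⟨_, rfl⟩
  have hN0 : N' ≠ ⊥ := by
    rw [Submodule.ne_bot_iff]
    exact ⟨v, by rw [hN']; exact ⟨⟨h1, h1⟩, hv⟩, hv0⟩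
  obtain ⟨j, v', hv', hv0', h2⟩ := exists_eigen Y ζ hζ N' hN0
  rw [hN'] at hv'
  exact ⟨η i, ζ j, v', hv'.2, hv0', hv'.1.1, h2⟩

/-- all elements of `A` act as scalars on `eig` -/
theorem exists_scalar (X Y : A) (hXY : Algebra.adjoin L {X, Y} = ⊤) (a b : L) (z : A) :
    ∃ c : L, ∀ m : M, m ∈ eig A X Y a b → z • m = c • m := by
  have hz : z ∈ Algebra.adjoin L {X, Y} := by rw [hXY]; trivial
  induction hz using Algebra.adjoin_induction with
  | mem x hx =>
    rcases hx with rfl | hx
    · exact ⟨a, fun m hm => hm.1⟩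
    · rw [Set.mem_singleton_iff] at hx
      subst hx
      exact ⟨b, fun m hm => hm.2⟩
  | algebraMap c => exact ⟨c, fun m _ => algebraMap_smul A c m⟩
  | add x y _ _ hx hy =>
    obtain ⟨c, hc⟩ := hx
    obtain ⟨d, hd⟩ := hy
    exact ⟨c + d, fun m hm => by rw [add_smul, add_smul, hc m hm, hd m hm]⟩
  | mul x y _ _ hx hy =>
    obtain ⟨c, hc⟩ := hx
    obtain ⟨d, hd⟩ := hy
    refine ⟨c * d, fun m hm => ?_⟩
    rw [mul_smul, hd m hm, ← algebraMap_smul A d m, hc _ (Submodule.smul_mem _ _ hm),
      algebraMap_smul, ← mul_smul]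

/-- the homomorphism by which `A` acts on an eigenvector -/
theorem exists_hom (X Y : A) (hXY : Algebra.adjoin L {X, Y} = ⊤) (a b : L)
    (htf : ∀ (c : L) (m : M), c • m = 0 → c = 0 ∨ m = 0) {v : M} (hv0 : v ≠ 0)
    (hv : v ∈ eig A X Y a b) :
    ∃ χ : A →ₐ[L] L, ∀ z : A, ∀ m : M, m ∈ eig A X Y a b → z • m = χ z • m := by
  choose c hc using exists_scalar (M := M) X Y hXY a b
  have hinj : ∀ s t : L, s • v = t • v → s = t := by
    intro s t h
    have h1 : (s - t) • v = 0 := by rw [sub_smul, h, sub_self]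
    rcases htf _ _ h1 with h2 | h2
    · exact sub_eq_zero.1 h2
    · exact absurd h2 hv0
  have h1 : c 1 = 1 := by
    apply hinj
    rw [← hc 1 v hv, one_smul, one_smul]
  have hmul : ∀ x y, c (x * y) = c x * c y := by
    intro x y
    apply hinj
    rw [← hc _ v hv, mul_smul, hc y v hv, ← algebraMap_smul A (c y) v,
      hc x _ (Submodule.smul_mem _ _ hv), algebraMap_smul, ← mul_smul]
  have h0 : c 0 = 0 := by
    apply hinj
    rw [← hc 0 v hv, zero_smul, zero_smul]
  have hadd : ∀ x y, c (x + y) = c x + c y := by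
    intro x y
    apply hinj
    rw [← hc _ v hv, add_smul, hc x v hv, hc y v hv, add_smul]
  have hcom : ∀ d : L, c (algebraMap L A d) = d := by
    intro d
    apply hinj
    rw [← hc _ v hv, algebraMap_smul]
  let χ0 : A →+* L := ⟨⟨⟨c, h1⟩, hmul⟩, h0, hadd⟩
  exact ⟨⟨χ0, hcom⟩, fun z m hm => hc z m hm⟩

/-- `w` acts injectively on torsion-free modules -/
theorem smul_injective (X Y : A) (hXY : Algebra.adjoin L {X, Y} = ⊤) {r s : ℕ} (η : Fin r → L)
    (ζ : Fin s → L) (hη : ∏ i, (X - algebraMap L A (η i)) = 0)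
    (hζ : ∏ j, (Y - algebraMap L A (ζ j)) = 0) (w : A) (hw : ∀ χ : A →ₐ[L] L, χ w ≠ 0)
    (htf : ∀ (c : L) (m : M), c • m = 0 → c = 0 ∨ m = 0) (m : M) (hm : w • m = 0) : m = 0 := by
  by_contra hm0
  obtain ⟨N, hN⟩ : ∃ N : Submodule A M, N = LinearMap.ker (LinearMap.lsmul A M w) := ⟨_, rfl⟩
  have hN0 : N ≠ ⊥ := by
    rw [Submodule.ne_bot_iff]
    exact ⟨m, by rw [hN]; exact hm, hm0⟩
  obtain ⟨a, b, v, hv, hv0, hve⟩ := exists_eig X Y η ζ hη hζ N hN0
  obtain ⟨χ, hχ⟩ := exists_hom X Y hXY a b htf hv0 hve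
  have h1 : w • v = 0 := by rw [hN] at hv; exact hv
  rw [hχ w v hve] at h1
  rcases htf _ _ h1 with h2 | h2
  · exact hw χ h2
  · exact hv0 h2

end ev

/-- `M / z M` -/
abbrev Cok {A : Type*} [CommRing A] (M : Type*) [AddCommGroup M] [Module A M] (z : A) : Type _ :=
  M ⧸ LinearMap.range (LinearMap.lsmul A M z)

section len

variable {F A : Type*} [CommRing F] [CommRing A] [Algebra F A]

theorem length_cok_le_add {M : Type*} [AddCommGroup M] [Module A M] [Module F M]
    [IsScalarTower F A M] (N : Submodule A M) (z : A) :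
    Module.length F (Cok M z) ≤ Module.length F (Cok N z) + Module.length F (Cok (M ⧸ N) z) := by
  -- the maps
  let f : Cok N z →ₗ[A] Cok M z := Submodule.mapQ _ _ N.subtype (by
    rintro _ ⟨n, rfl⟩
    exact ⟨n, rfl⟩)
  let g : Cok M z →ₗ[A] Cok (M ⧸ N) z := Submodule.mapQ _ _ N.mkQ (by
    rintro _ ⟨n, rfl⟩
    exact ⟨N.mkQ n, by simp⟩)
  have hg : Function.Surjective g := by
    intro x
    obtain ⟨x, rfl⟩ := Submodule.mkQ_surjective _ x
    obtain ⟨x, rfl⟩ := Submodule.mkQ_surjective _ x
    exact ⟨Submodule.mkQ _ x, rfl⟩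
  have hfg : Function.Exact f g := by
    intro x
    obtain ⟨x, rfl⟩ := Submodule.mkQ_surjective _ x
    constructor
    · intro h
      have h1 : Submodule.mkQ (LinearMap.range (LinearMap.lsmul A (M ⧸ N) z)) (N.mkQ x) = 0 := h
      rw [Submodule.mkQ_apply, Submodule.Quotient.mk_eq_zero] at h1
      obtain ⟨y, hy⟩ := h1
      obtain ⟨y, rfl⟩ := Submodule.mkQ_surjective _ y
      have h2 : z • N.mkQ y = N.mkQ x := hy
      rw [← map_smul, ← sub_eq_zero, ← map_sub, Submodule.mkQ_apply,
        Submodule.Quotient.mk_eq_zero] at h2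
      refine ⟨Submodule.mkQ _ ⟨x - z • y, ?_⟩, ?_⟩
      · rw [← neg_sub]
        exact N.neg_mem h2
      · show Submodule.mkQ (LinearMap.range (LinearMap.lsmul A M z)) (x - z • y) = _
        rw [map_sub, sub_eq_self, Submodule.mkQ_apply, Submodule.Quotient.mk_eq_zero]
        exact ⟨y, rfl⟩
    · rintro ⟨y, hy⟩
      obtain ⟨y, rfl⟩ := Submodule.mkQ_surjective _ y
      rw [← hy]
      show Submodule.mkQ (LinearMap.range (LinearMap.lsmul A (M ⧸ N) z)) (N.mkQ y) = 0
      have : N.mkQ (y : M) = 0 := by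
        rw [Submodule.mkQ_apply, Submodule.Quotient.mk_eq_zero]
        exact y.2
      rw [this, map_zero]
  -- lengths
  have h1 := Module.length_eq_add_of_exact
    (LinearMap.range (f.restrictScalars F)).subtype (g.restrictScalars F)
    (Submodule.subtype_injective _) hg (by
      intro x
      rw [show (g.restrictScalars F) x = g x from rfl, hfg x]
      simp)
  rw [h1]
  apply add_le_add_left
  exact Module.length_le_of_surjective ((f.restrictScalars F).rangeRestrict)
    (LinearMap.surjective_rangeRestrict _)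

theorem length_cok_eq_add {M : Type*} [AddCommGroup M] [Module A M] [Module F M]
    [IsScalarTower F A M] (N : Submodule A M) (z : A) (hz : ∀ m : M ⧸ N, z • m = 0 → m = 0) :
    Module.length F (Cok M z) = Module.length F (Cok N z) + Module.length F (Cok (M ⧸ N) z) := by
  -- the maps
  let f : Cok N z →ₗ[A] Cok M z := Submodule.mapQ _ _ N.subtype (by
    rintro _ ⟨n, rfl⟩
    exact ⟨n, rfl⟩)
  let g : Cok M z →ₗ[A] Cok (M ⧸ N) z := Submodule.mapQ _ _ N.mkQ (by
    rintro _ ⟨n, rfl⟩
    exact ⟨N.mkQ n, by simp⟩)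
  have hf : Function.Injective f := by
    rw [injective_iff_map_eq_zero]
    intro x hx
    obtain ⟨x, rfl⟩ := Submodule.mkQ_surjective _ x
    have h1 : Submodule.mkQ (LinearMap.range (LinearMap.lsmul A M z)) (x : M) = 0 := hx
    rw [Submodule.mkQ_apply, Submodule.Quotient.mk_eq_zero] at h1
    obtain ⟨y, hy⟩ := h1
    have hy' : z • y = (x : M) := hy
    have h2 : N.mkQ y = 0 := by
      apply hz
      rw [← map_smul, hy', Submodule.mkQ_apply, Submodule.Quotient.mk_eq_zero]
      exact x.2
    rw [Submodule.mkQ_apply, Submodule.Quotient.mk_eq_zero] at h2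
    rw [Submodule.mkQ_apply, Submodule.Quotient.mk_eq_zero]
    exact ⟨⟨y, h2⟩, Subtype.ext hy'⟩
  have hg : Function.Surjective g := by
    intro x
    obtain ⟨x, rfl⟩ := Submodule.mkQ_surjective _ x
    obtain ⟨x, rfl⟩ := Submodule.mkQ_surjective _ x
    exact ⟨Submodule.mkQ _ x, rfl⟩
  have hfg : Function.Exact f g := by
    intro x
    obtain ⟨x, rfl⟩ := Submodule.mkQ_surjective _ x
    constructor
    · intro h
      have h1 : Submodule.mkQ (LinearMap.range (LinearMap.lsmul A (M ⧸ N) z)) (N.mkQ x) = 0 := h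
      rw [Submodule.mkQ_apply, Submodule.Quotient.mk_eq_zero] at h1
      obtain ⟨y, hy⟩ := h1
      obtain ⟨y, rfl⟩ := Submodule.mkQ_surjective _ y
      have h2 : z • N.mkQ y = N.mkQ x := hy
      rw [← map_smul, ← sub_eq_zero, ← map_sub, Submodule.mkQ_apply,
        Submodule.Quotient.mk_eq_zero] at h2
      refine ⟨Submodule.mkQ _ ⟨x - z • y, ?_⟩, ?_⟩
      · rw [← neg_sub]
        exact N.neg_mem h2
      · show Submodule.mkQ (LinearMap.range (LinearMap.lsmul A M z)) (x - z • y) = _
        rw [map_sub, sub_eq_self, Submodule.mkQ_apply, Submodule.Quotient.mk_eq_zero]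
        exact ⟨y, rfl⟩
    · rintro ⟨y, hy⟩
      obtain ⟨y, rfl⟩ := Submodule.mkQ_surjective _ y
      rw [← hy]
      show Submodule.mkQ (LinearMap.range (LinearMap.lsmul A (M ⧸ N) z)) (N.mkQ y) = 0
      have : N.mkQ (y : M) = 0 := by
        rw [Submodule.mkQ_apply, Submodule.Quotient.mk_eq_zero]
        exact y.2
      rw [this, map_zero]
  exact Module.length_eq_add_of_exact (f.restrictScalars F) (g.restrictScalars F) hf hg hfg

end len

end GT63

open GT63

universe u

/-- GT: the engine -/
theorem gt {F L A : Type*} [CommRing F] [CommRing L] [IsDomain L] [IsNoetherianRing L]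
    [CommRing A] [Algebra F L]
    [Algebra L A] [Algebra F A] [IsScalarTower F L A] (X Y : A)
    (hXY : Algebra.adjoin L {X, Y} = ⊤) {r s : ℕ} (η : Fin r → L) (ζ : Fin s → L)
    (hη : ∏ i, (X - algebraMap L A (η i)) = 0) (hζ : ∏ j, (Y - algebraMap L A (ζ j)) = 0)
    (u w : A) (huw : ∀ χ : A →ₐ[L] L, χ w ≠ 0 ∧ χ u ∣ χ w) :
    ∀ (n : ℕ) (M : Type u) [AddCommGroup M] [Module A M] [Module L M] [IsScalarTower L A M]
      [Module F M] [IsScalarTower F A M] [Module.Finite L M],
      (∀ (c : L) (m : M), c • m = 0 → c = 0 ∨ m = 0) → Module.finrank L M < n →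
      Module.length F (Cok M u) ≤ Module.length F (Cok M w) := by
  intro n
  induction n with
  | zero => intro M _ _ _ _ _ _ _ _ h; exact absurd h (Nat.not_lt_zero _)
  | succ n ih =>
    intro M _ _ _ _ _ _ _ htf hrk
    by_cases hM : Subsingleton M
    · rw [Module.length_eq_zero]
      exact bot_le
    have hnt : Nontrivial M := not_subsingleton_iff_nontrivial.1 hM
    obtain ⟨a, b, v, -, hv0, hv⟩ := exists_eig X Y η ζ hη hζ (⊤ : Submodule A M) top_ne_bot
    obtain ⟨χ, hχ⟩ := exists_hom X Y hXY a b htf hv0 hv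
    obtain ⟨N, hN⟩ : ∃ N : Submodule A M, N = eig A X Y a b := ⟨_, rfl⟩
    -- the quotient is torsion-free
    have htf' : ∀ (c : L) (m : M ⧸ N), c • m = 0 → c = 0 ∨ m = 0 := by
      intro c m hcm
      obtain ⟨m, rfl⟩ := Submodule.mkQ_surjective _ m
      by_cases hc : c = 0
      · exact Or.inl hc
      right
      have h1 : c • m ∈ N := by
        rw [← Submodule.Quotient.mk_eq_zero]
        exact hcm
      rw [Submodule.mkQ_apply, Submodule.Quotient.mk_eq_zero]
      rw [hN] at h1 ⊢
      obtain ⟨h2, h3⟩ := h1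
      have aux : ∀ (Z : A) (d : L), Z • c • m = d • c • m → Z • m = d • m := by
        intro Z d h
        have h4 : c • (Z • m - d • m) = 0 := by
          rw [smul_sub, smul_comm c d m, ← h, ← algebraMap_smul A c m, smul_comm Z _ m,
            algebraMap_smul, sub_self]
        rcases htf _ _ h4 with h5 | h5
        · exact absurd h5 hc
        · exact sub_eq_zero.1 h5
      exact ⟨aux _ _ h2, aux _ _ h3⟩
    -- the rank
    have hrk' : Module.finrank L (M ⧸ N) < n := by
      have h1 := Submodule.finrank_quotient_add_finrank (N.restrictScalars L)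
      have h2 : 0 < Module.finrank L (N.restrictScalars L) := by
        have : Nontrivial (N.restrictScalars L) := by
          refine ⟨⟨⟨v, by rw [hN]; exact hv⟩, 0, ?_⟩⟩
          intro h
          exact hv0 (congrArg Subtype.val h)
        have : Module.IsTorsionFree L (N.restrictScalars L) := by
          refine ⟨fun c hc x y hxy => ?_⟩
          have hc0 : c ≠ 0 := hc.ne_zero
          have h3 : c • ((x : M) - y) = 0 := by
            have := congrArg Subtype.val hxy
            simp only [Submodule.coe_smul] at this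
            rw [smul_sub, this, sub_self]
          rcases htf _ _ h3 with h4 | h4
          · exact absurd h4 hc0
          · exact Subtype.ext (sub_eq_zero.1 h4)
        exact Module.finrank_pos
      have h3 : Module.finrank L (M ⧸ N) = Module.finrank L (M ⧸ N.restrictScalars L) := rfl
      omega
    have hfin : Module.Finite L (M ⧸ N) :=
      Module.Finite.of_surjective (N.mkQ.restrictScalars L) N.mkQ_surjective
    have h1 := ih (M ⧸ N) htf' hrk'
    have h2 := length_cok_le_add (F := F) N u
    have h3 := length_cok_eq_add (F := F) N w (fun m hm =>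
      smul_injective X Y hXY η ζ hη hζ w (fun χ => (huw χ).1) htf' m hm)
    -- on `N` everything is scalar
    have h4 : Module.length F (Cok N u) ≤ Module.length F (Cok N w) := by
      obtain ⟨-, c, hc⟩ := huw χ
      have hle : LinearMap.range (LinearMap.lsmul A N w) ≤
          LinearMap.range (LinearMap.lsmul A N u) := by
        rintro _ ⟨m, rfl⟩
        refine ⟨algebraMap L A c • m, Subtype.ext ?_⟩
        have hm : (m : M) ∈ eig A X Y a b := by rw [← hN]; exact m.2
        have hcm : algebraMap L A c • (m : M) ∈ eig A X Y a b := Submodule.smul_mem _ _ hm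
        show u • (algebraMap L A c • (m : M)) = w • (m : M)
        rw [hχ u _ hcm, hχ w _ hm, hc, mul_smul, algebraMap_smul]
      exact Module.length_le_of_surjective
        ((Submodule.factor hle).restrictScalars F) (Submodule.factor_surjective hle)
    rw [h3]
    exact h2.trans (add_le_add h4 h1)

end Pool.Agent.DU5.TE
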