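import Mathlib
import Pool.Agent.Lib.MP_524519_ag.DU5.PC.Iface
import Pool.Agent.Lib.MP_524519_ag.DU5.TE.H63.Gt

/-!
# TH: comparison of colengths by points

`A` is a finite torsion-free commutative algebra over `F⟦W⟧`, generated by two elements, of rank at
most `r`, where `F` is good for the degree `r`.  If `χ u ∣ χ w`, `χ w ≠ 0` for all points
`χ : A → F⟦s⟧`, `W = s^n`, then the colength of `u` is at most the colength of `w`.
-/

set_option autoImplicit false

open scoped TensorProduct

namespace Pool.Agent.DU5.TE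

open GT63

namespace TH63

/-- `F⟦s⟧` as an algebra over `F⟦W⟧`, `W = s^n` -/
def LL (F : Type) [Field F] (_ : ℕ) : Type := PowerSeries F

variable (F : Type) [Field F] (n : ℕ)

noncomputable instance : CommRing (LL F n) := inferInstanceAs (CommRing (PowerSeries F))
instance : IsDomain (LL F n) := inferInstanceAs (IsDomain (PowerSeries F))
instance : IsNoetherianRing (LL F n) := inferInstanceAs (IsNoetherianRing (PowerSeries F))
noncomputable instance : Algebra F (LL F n) := inferInstanceAs (Algebra F (PowerSeries F))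

noncomputable instance [NeZero n] : Algebra (PowerSeries F) (LL F n) :=
  RingHom.toAlgebra (S := PowerSeries F) (PC.ex F n (NeZero.ne n))

theorem algebraMap_LL [NeZero n] (a : PowerSeries F) :
    algebraMap (PowerSeries F) (LL F n) a = PC.ex F n (NeZero.ne n) a := rfl

instance [NeZero n] : IsScalarTower F (PowerSeries F) (LL F n) := by
  refine IsScalarTower.of_algebraMap_eq fun c => ?_
  rw [algebraMap_LL]
  show algebraMap F (PowerSeries F) c = PC.ex F n (NeZero.ne n) (algebraMap F (PowerSeries F) c)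
  exact ((PowerSeries.expand n (NeZero.ne n) : PowerSeries F →ₐ[F] PowerSeries F).commutes c).symm

/-- the identity map -/
def toLL {F : Type} [Field F] {n : ℕ} (f : PowerSeries F) : LL F n := f

/-- the identity map -/
noncomputable def ofLL {F : Type} [Field F] {n : ℕ} : LL F n →+* PowerSeries F := RingHom.id (PowerSeries F)

/-- `c ↦ ∑ c_j s^j` -/
noncomputable def phi [NeZero n] : (Fin n → PowerSeries F) →ₗ[PowerSeries F] LL F n where
  toFun c := ∑ j, algebraMap (PowerSeries F) (LL F n) (c j) *
    toLL (PowerSeries.X ^ (j : ℕ))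
  map_add' c d := by
    rw [← Finset.sum_add_distrib]
    refine Finset.sum_congr rfl fun j _ => ?_
    rw [Pi.add_apply, map_add, add_mul]
  map_smul' a c := by
    rw [RingHom.id_apply, Finset.smul_sum]
    refine Finset.sum_congr rfl fun j _ => ?_
    rw [Pi.smul_apply, smul_eq_mul, map_mul, Algebra.smul_def, mul_assoc]

theorem coeff_phi [NeZero n] (c : Fin n → PowerSeries F) (m : ℕ) (j : Fin n) :
    PowerSeries.coeff (m * n + j) (ofLL (phi F n c)) = PowerSeries.coeff m (c j) := by
  have h1 : ofLL (phi F n c) = ∑ i : Fin n, PC.ex F n (NeZero.ne n) (c i) *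
      (PowerSeries.X ^ (i : ℕ) : PowerSeries F) := by
    show ofLL (∑ i : Fin n, algebraMap (PowerSeries F) (LL F n) (c i) *
      toLL (PowerSeries.X ^ (i : ℕ))) = _
    rw [map_sum]
    rfl
  rw [h1, map_sum, Finset.sum_eq_single j]
  · rw [PowerSeries.coeff_mul_X_pow]
    show PowerSeries.coeff (m * n) (PowerSeries.expand n (NeZero.ne n) (c j)) = _
    rw [mul_comm, PowerSeries.coeff_expand_mul]
  · intro i _ hij
    rw [PowerSeries.coeff_mul_X_pow']
    split_ifs with h
    · show PowerSeries.coeff (m * n + j - i) (PowerSeries.expand n (NeZero.ne n) (c i)) = 0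
      apply PowerSeries.coeff_expand_of_not_dvd
      intro hd
      have h2 : m * n + (j : ℕ) ≡ i [MOD n] := by
        have := (Nat.modEq_iff_dvd' h).2 hd
        exact this.symm
      have h3 : (j : ℕ) ≡ i [MOD n] := by
        have h4 : m * n + (j : ℕ) ≡ 0 + j [MOD n] :=
          Nat.ModEq.add_right _ ((Nat.modEq_zero_iff_dvd).2 (Dvd.intro_left m rfl))
        rw [zero_add] at h4
        exact h4.symm.trans h2
      have h5 : (j : ℕ) = i := Nat.ModEq.eq_of_lt_of_lt h3 j.2 i.2
      exact hij (Fin.ext h5.symm)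
    · rfl
  · intro h
    exact absurd (Finset.mem_univ j) h

theorem phi_bijective [NeZero n] : Function.Bijective (phi F n) := by
  have hn : 0 < n := Nat.pos_of_ne_zero (NeZero.ne n)
  constructor
  · intro c d h
    funext j
    ext m
    rw [← coeff_phi F n c m j, ← coeff_phi F n d m j, h]
  · intro h
    refine ⟨fun j => PowerSeries.mk fun m => PowerSeries.coeff (m * n + j) (ofLL h), ?_⟩
    apply PowerSeries.ext
    intro N
    have h1 := coeff_phi F n (fun j => PowerSeries.mk fun m =>
      PowerSeries.coeff (m * n + j) (ofLL h)) (N / n) ⟨N % n, Nat.mod_lt _ hn⟩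
    simp only [PowerSeries.coeff_mk] at h1
    have h2 : N / n * n + N % n = N := by rw [mul_comm]; exact Nat.div_add_mod N n
    rw [h2] at h1
    exact h1

/-- the basis `1, s, ..., s^(n-1)` -/
noncomputable def bas [NeZero n] : Module.Basis (Fin n) (PowerSeries F) (LL F n) :=
  Module.Basis.ofEquivFun (LinearEquiv.ofBijective (phi F n) (phi_bijective F n)).symm

instance [NeZero n] : Module.Finite (PowerSeries F) (LL F n) := Module.Finite.of_basis (bas F n)
instance [NeZero n] : Module.Free (PowerSeries F) (LL F n) := Module.Free.of_basis (bas F n)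

section tensor

variable {F n}
variable {A : Type} [CommRing A] [Algebra (PowerSeries F) A]

/-- `A` with the structure of an `F`-algebra -/
theorem length_tensor [NeZero n] [Algebra F A] [IsScalarTower F (PowerSeries F) A] (g : A) :
    Module.length F (Cok (LL F n ⊗[PowerSeries F] A) ((1 : LL F n) ⊗ₜ[PowerSeries F] g)) =
      n * Module.length F (Cok A g) := by
  let e0 : LL F n ⊗[PowerSeries F] A ≃ₗ[PowerSeries F] (Fin n →₀ A) :=
    TensorProduct.equivFinsuppOfBasisLeft (bas F n)
  have he0 : ∀ x, e0 (((1 : LL F n) ⊗ₜ[PowerSeries F] g) * x) =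
      (e0 x).mapRange (fun a => g * a) (mul_zero g) := by
    intro x
    induction x using TensorProduct.induction_on with
    | zero => simp
    | tmul l a =>
      rw [Algebra.TensorProduct.tmul_mul_tmul, one_mul]
      ext i
      rw [TensorProduct.equivFinsuppOfBasisLeft_apply_tmul_apply, Finsupp.mapRange_apply,
        TensorProduct.equivFinsuppOfBasisLeft_apply_tmul_apply, mul_smul_comm]
    | add x y hx hy =>
      rw [mul_add, map_add, hx, hy, map_add]
      ext i
      simp [mul_add]
  let ψ : LL F n ⊗[PowerSeries F] A →ₗ[PowerSeries F] (Fin n → Cok A g) :=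
    (LinearMap.pi fun i => ((LinearMap.range (LinearMap.lsmul A A g)).mkQ.restrictScalars
      (PowerSeries F)) ∘ₗ (Finsupp.lapply i)) ∘ₗ e0.toLinearMap
  have hψ : ∀ x i, ψ x i = (LinearMap.range (LinearMap.lsmul A A g)).mkQ (e0 x i) :=
    fun x i => rfl
  have hsurj : Function.Surjective ψ := by
    intro y
    choose z hz using fun i => (LinearMap.range (LinearMap.lsmul A A g)).mkQ_surjective (y i)
    refine ⟨e0.symm (Finsupp.equivFunOnFinite.symm z), funext fun i => ?_⟩
    rw [hψ, LinearEquiv.apply_symm_apply]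
    exact hz i
  have hker : LinearMap.ker (ψ.restrictScalars F) = (LinearMap.range (LinearMap.lsmul
      (LL F n ⊗[PowerSeries F] A) (LL F n ⊗[PowerSeries F] A)
        ((1 : LL F n) ⊗ₜ[PowerSeries F] g))).restrictScalars F := by
    ext x
    rw [LinearMap.mem_ker, Submodule.restrictScalars_mem]
    constructor
    · intro hx
      have h1 : ∀ i, ∃ y : A, g * y = e0 x i := by
        intro i
        have h2 : ψ x i = 0 := congrFun hx i
        rw [hψ, Submodule.mkQ_apply, Submodule.Quotient.mk_eq_zero] at h2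
        obtain ⟨y, hy⟩ := h2
        exact ⟨y, hy⟩
      choose y hy using h1
      refine ⟨e0.symm (Finsupp.equivFunOnFinite.symm y), ?_⟩
      show ((1 : LL F n) ⊗ₜ[PowerSeries F] g) * e0.symm (Finsupp.equivFunOnFinite.symm y) = x
      apply e0.injective
      rw [he0, LinearEquiv.apply_symm_apply]
      ext i
      rw [Finsupp.mapRange_apply]
      exact hy i
    · rintro ⟨y, rfl⟩
      funext i
      show ψ (((1 : LL F n) ⊗ₜ[PowerSeries F] g) * y) i = 0
      rw [hψ, he0, Finsupp.mapRange_apply, Submodule.mkQ_apply, Submodule.Quotient.mk_eq_zero]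
      exact ⟨e0 y i, rfl⟩
  rw [← (Submodule.Quotient.restrictScalarsEquiv F (LinearMap.range (LinearMap.lsmul
      (LL F n ⊗[PowerSeries F] A) (LL F n ⊗[PowerSeries F] A)
        ((1 : LL F n) ⊗ₜ[PowerSeries F] g)))).length_eq, ← hker,
    (LinearMap.quotKerEquivOfSurjective (ψ.restrictScalars F) hsurj).length_eq,
    Module.length_pi, ENat.card_eq_coe_fintype_card, Fintype.card_fin]

theorem adjoin_tensor [NeZero n] (X Y : A) (hXY : Algebra.adjoin (PowerSeries F) {X, Y} = ⊤) :
    Algebra.adjoin (LL F n) {(1 : LL F n) ⊗ₜ[PowerSeries F] X, (1 : LL F n) ⊗ₜ[PowerSeries F] Y} =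
      ⊤ := by
  rw [eq_top_iff]
  intro x _
  have key : ∀ a : A, (1 : LL F n) ⊗ₜ[PowerSeries F] a ∈ Algebra.adjoin (LL F n)
      {(1 : LL F n) ⊗ₜ[PowerSeries F] X, (1 : LL F n) ⊗ₜ[PowerSeries F] Y} := by
    intro a
    have ha : a ∈ Algebra.adjoin (PowerSeries F) {X, Y} := by rw [hXY]; trivial
    induction ha using Algebra.adjoin_induction with
    | mem x hx =>
      apply Algebra.subset_adjoin
      rcases hx with rfl | hx
      · exact Or.inl rfl
      · rw [Set.mem_singleton_iff] at hx
        subst hx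
        exact Or.inr rfl
    | algebraMap c =>
      have : (1 : LL F n) ⊗ₜ[PowerSeries F] (algebraMap (PowerSeries F) A c) =
          algebraMap (LL F n) (LL F n ⊗[PowerSeries F] A) (algebraMap (PowerSeries F) (LL F n) c) := by
        rw [Algebra.TensorProduct.algebraMap_apply, Algebra.algebraMap_eq_smul_one,
          Algebra.algebraMap_eq_smul_one, TensorProduct.tmul_smul]
        rfl
      rw [this]
      exact Subalgebra.algebraMap_mem _ _
    | add x y _ _ hx hy =>
      rw [TensorProduct.tmul_add]
      exact add_mem hx hy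
    | mul x y _ _ hx hy =>
      have : (1 : LL F n) ⊗ₜ[PowerSeries F] (x * y) =
          ((1 : LL F n) ⊗ₜ[PowerSeries F] x) * ((1 : LL F n) ⊗ₜ[PowerSeries F] y) := by
        rw [Algebra.TensorProduct.tmul_mul_tmul, one_mul]
      rw [this]
      exact mul_mem hx hy
  induction x using TensorProduct.induction_on with
  | zero => exact zero_mem _
  | tmul l a =>
    have : l ⊗ₜ[PowerSeries F] a = l • ((1 : LL F n) ⊗ₜ[PowerSeries F] a) := by
      rw [TensorProduct.smul_tmul', smul_eq_mul, mul_one]
    rw [this]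
    exact Subalgebra.smul_mem _ (key a) l
  | add x y hx hy => exact add_mem (hx trivial) (hy trivial)

end tensor

end TH63

open TH63 Polynomial

/-- TH. Comparison of colengths by points. -/
def ThStatement : Prop :=
  ∀ (F : Type) [Field F] (r : ℕ), PC.Good F r → ∀ (A : Type) [CommRing A]
    [Algebra (PowerSeries F) A] [Algebra F A] [IsScalarTower F (PowerSeries F) A]
    [Module.Finite (PowerSeries F) A], (∀ (c : PowerSeries F) (a : A), c • a = 0 → c = 0 ∨ a = 0) →
    Module.finrank (PowerSeries F) A ≤ r →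
    ∀ x y : A, Algebra.adjoin (PowerSeries F) {x, y} = ⊤ → ∀ u w : A,
    (∀ (n : ℕ) (hn : n ≠ 0) (χ : A →+* PowerSeries F), (n : F) ≠ 0 →
      (∀ c, χ (algebraMap (PowerSeries F) A c) = PC.ex F n hn c) → χ w ≠ 0 ∧ χ u ∣ χ w) →
    Module.length F (A ⧸ Ideal.span {u}) ≤ Module.length F (A ⧸ Ideal.span {w})

theorem good_mono' {K : Type} [Field K] {d d' : ℕ} (h : PC.Good K d) (hd : d' ≤ d) :
    PC.Good K d' where
  fac := by
    intro h0
    apply h.fac
    obtain ⟨c, hc⟩ := Nat.factorial_dvd_factorial hd
    rw [hc, Nat.cast_mul, h0, zero_mul]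
  splits := fun q hq hq' => h.splits q hq (hq'.trans hd)

theorem range_lsmul_eq {A : Type*} [CommRing A] (g : A) :
    LinearMap.range (LinearMap.lsmul A A g) = Ideal.span {g} := by
  ext x
  rw [Ideal.mem_span_singleton', LinearMap.mem_range]
  constructor
  · rintro ⟨y, rfl⟩
    exact ⟨y, by rw [LinearMap.lsmul_apply, smul_eq_mul, mul_comm]⟩
  · rintro ⟨y, rfl⟩
    exact ⟨y, by rw [LinearMap.lsmul_apply, smul_eq_mul, mul_comm]⟩

theorem th (np : PC.NpStatement) : ThStatement := by
  intro F _ r hgood A _ _ _ _ _ htf hrk x y hxy u w huw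
  rw [← range_lsmul_eq, ← range_lsmul_eq]
  by_cases hA : Subsingleton A
  · have : Subsingleton (A ⧸ LinearMap.range (LinearMap.lsmul A A u)) := inferInstance
    rw [Module.length_eq_zero]
    exact bot_le
  have hnt : Nontrivial A := not_subsingleton_iff_nontrivial.1 hA
  have htf' : Module.IsTorsionFree (PowerSeries F) A := by
    refine ⟨fun c hc a b hab => ?_⟩
    have h3 : c • (a - b) = 0 := by
      rw [smul_sub, sub_eq_zero]
      exact hab
    rcases htf _ _ h3 with h4 | h4
    · exact absurd h4 hc.ne_zero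
    · exact sub_eq_zero.1 h4
  have hfree : Module.Free (PowerSeries F) A := inferInstance
  obtain ⟨d, hd⟩ : ∃ d, d = Module.finrank (PowerSeries F) A := ⟨_, rfl⟩
  have hgood' : PC.Good F d := good_mono' hgood (by rw [hd]; exact hrk)
  -- the exponent
  obtain ⟨n, hn⟩ : ∃ n, n = PC.rootExp d := ⟨_, rfl⟩
  have hn0 : n ≠ 0 := by
    rw [hn]
    exact Finset.prod_ne_zero_iff.2 fun i _ => Nat.factorial_ne_zero _
  have hnF : (n : F) ≠ 0 := by
    rw [hn, PC.rootExp, Nat.cast_prod]
    refine Finset.prod_ne_zero_iff.2 fun i hi => ?_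
    exact (good_mono' hgood' (Finset.mem_range.1 hi)).fac
  have : NeZero n := ⟨hn0⟩
  -- the roots
  have roots : ∀ z : A, ∃ η : Fin d → LL F n, ∏ i, (((1 : LL F n) ⊗ₜ[PowerSeries F] z) -
      algebraMap (LL F n) (LL F n ⊗[PowerSeries F] A) (η i)) = 0 := by
    intro z
    obtain ⟨P, hP⟩ : ∃ P, P = LinearMap.charpoly (Algebra.lmul (PowerSeries F) A z) := ⟨_, rfl⟩
    have hPm : P.Monic := by rw [hP]; exact LinearMap.charpoly_monic _
    have hPd : P.natDegree = d := by rw [hP, hd]; exact LinearMap.charpoly_natDegree _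
    have hPz : aeval z P = 0 := by
      have h1 : aeval (Algebra.lmul (PowerSeries F) A z) P = 0 := by
        rw [hP]; exact LinearMap.aeval_self_charpoly _
      rw [aeval_algHom_apply] at h1
      have h2 := congrArg (fun f => f 1) h1
      simpa using h2
    obtain ⟨η, hη⟩ := np F d hgood' P hPm hPd n hn0 (by rw [hn])
    refine ⟨fun i => toLL (η i), ?_⟩
    have h1 : aeval ((1 : LL F n) ⊗ₜ[PowerSeries F] z) P = 0 := by
      have h2 : (1 : LL F n) ⊗ₜ[PowerSeries F] z =
        (Algebra.TensorProduct.includeRight : A →ₐ[PowerSeries F] LL F n ⊗[PowerSeries F] A) z :=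
        rfl
      rw [h2, aeval_algHom_apply, hPz, map_zero]
    have h3 : aeval ((1 : LL F n) ⊗ₜ[PowerSeries F] z)
        (P.map (algebraMap (PowerSeries F) (LL F n))) = 0 := by
      rw [aeval_map_algebraMap, h1]
    have h4 : P.map (algebraMap (PowerSeries F) (LL F n)) =
        ∏ i, (Polynomial.X - Polynomial.C (toLL (η i) : LL F n)) := hη
    rw [h4, map_prod] at h3
    rw [← h3]
    refine Finset.prod_congr rfl fun i _ => ?_
    rw [map_sub, aeval_X, aeval_C]
  obtain ⟨η, hη⟩ := roots x
  obtain ⟨ζ, hζ⟩ := roots y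
  have hfin : Module.Finite (LL F n) (LL F n ⊗[PowerSeries F] A) := inferInstance
  have hfree' : Module.Free (LL F n) (LL F n ⊗[PowerSeries F] A) := inferInstance
  have key := gt (F := F) (L := LL F n) (A := LL F n ⊗[PowerSeries F] A)
    ((1 : LL F n) ⊗ₜ[PowerSeries F] x) ((1 : LL F n) ⊗ₜ[PowerSeries F] y)
    (adjoin_tensor x y hxy) η ζ hη hζ ((1 : LL F n) ⊗ₜ[PowerSeries F] u)
    ((1 : LL F n) ⊗ₜ[PowerSeries F] w) (fun χ => by
      have h5 := huw n hn0 ((ofLL.comp (χ : LL F n ⊗[PowerSeries F] A →+* LL F n)).comp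
        (Algebra.TensorProduct.includeRight :
          A →ₐ[PowerSeries F] LL F n ⊗[PowerSeries F] A).toRingHom) hnF (fun c => by
        have h6 : (1 : LL F n) ⊗ₜ[PowerSeries F] (algebraMap (PowerSeries F) A c) =
            algebraMap (LL F n) (LL F n ⊗[PowerSeries F] A)
              (algebraMap (PowerSeries F) (LL F n) c) := by
          rw [Algebra.TensorProduct.algebraMap_apply, Algebra.algebraMap_eq_smul_one,
            Algebra.algebraMap_eq_smul_one, TensorProduct.tmul_smul]
          rfl
        show χ ((1 : LL F n) ⊗ₜ[PowerSeries F] (algebraMap (PowerSeries F) A c)) = _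
        rw [h6, AlgHom.commutes]
        rfl)
      exact h5)
    (Module.finrank (LL F n) (LL F n ⊗[PowerSeries F] A) + 1) (LL F n ⊗[PowerSeries F] A)
    (fun c m hcm => smul_eq_zero.1 hcm) (Nat.lt_succ_self _)
  rw [length_tensor, length_tensor] at key
  exact (ENat.mul_le_mul_left_iff (by exact_mod_cast hn0) (ENat.natCast_ne_top n)).1 key

end Pool.Agent.DU5.TE
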