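import Mathlib
import Pool.Agent.Lib.MP_524519_ag.DU5.TE.Iface
import Pool.Agent.Lib.MP_524519_ag.DU5.TE.H63.Th
import Pool.Agent.Lib.MP_524519_ag.DU5.TE.H63.Fgt
import Pool.Agent.Lib.MP_524519_ag.DU5.AB.H21.Len

/-!
# ALG: the commutative algebra of Teissier's inequality
-/

set_option autoImplicit false

namespace Pool.Agent.DU5.TE

open MvPowerSeries

namespace ALG63

/-- `F⟦s⟧` is infinite dimensional -/
theorem not_finite (F : Type) [Field F] : ¬ Module.Finite F (PowerSeries F) := by
  intro h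
  have h1 : Module.Finite F (Polynomial F) := by
    refine Module.Finite.of_injective
      (Polynomial.coeToPowerSeries.algHom (R := F) F).toLinearMap ?_
    intro a b hab
    have : (a : PowerSeries F) = (b : PowerSeries F) := by
      simpa [Polynomial.coeToPowerSeries.algHom_apply] using hab
    exact Polynomial.coe_injective F this
  exact Polynomial.not_finite h1

theorem dvd_of_order_le {F : Type} [Field F] {a b : PowerSeries F} (ha : a ≠ 0)
    (h : a.order ≤ b.order) : a ∣ b := by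
  obtain ⟨c, hc⟩ := PowerSeries.X_pow_order_dvd (φ := a)
  have hm : PowerSeries.X ^ a.order.toNat ∣ b := by
    rw [PowerSeries.X_pow_dvd_iff]
    intro m hm
    apply PowerSeries.coeff_of_lt_order
    refine lt_of_lt_of_le ?_ h
    have h1 : a.order ≠ ⊤ := by
      rw [Ne, PowerSeries.order_eq_top]
      exact ha
    rw [← ENat.natCast_toNat h1]
    exact_mod_cast hm
  have hcu : IsUnit c := by
    rw [PowerSeries.isUnit_iff_constantCoeff, isUnit_iff_ne_zero]
    intro h0
    have h1 : PowerSeries.X ∣ c := PowerSeries.X_dvd_iff.2 h0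
    obtain ⟨d, hd⟩ := h1
    have h2 : PowerSeries.X ^ (a.order.toNat + 1) ∣ a := ⟨d, by rw [pow_succ, mul_assoc, ← hd]; exact hc⟩
    rw [PowerSeries.X_pow_dvd_iff] at h2
    have h3 := h2 a.order.toNat (Nat.lt_succ_self _)
    exact PowerSeries.coeff_order ha h3
  obtain ⟨e, he⟩ := hm
  obtain ⟨v, hv⟩ := hcu.exists_left_inv
  refine ⟨v * e, ?_⟩
  rw [hc, he]
  linear_combination (-PowerSeries.X ^ a.order.toNat * e) * hv

variable (F : Type) [Field F]

theorem algMap_eq (c : F) : algebraMap F (PowerSeries (PC.R2 F)) c =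
    PowerSeries.C (MvPowerSeries.C c) := by
  rw [PowerSeries.algebraMap_apply]
  congr 1

/-- `S⟦W⟧ / (g₁, g₂)` -/
def AA (g₁ g₂ : PowerSeries (PC.R2 F)) : Type := PowerSeries (PC.R2 F) ⧸ Ideal.span {g₁, g₂}

variable (g₁ g₂ : PowerSeries (PC.R2 F))

noncomputable instance : CommRing (AA F g₁ g₂) :=
  inferInstanceAs (CommRing (PowerSeries (PC.R2 F) ⧸ Ideal.span {g₁, g₂}))

noncomputable instance : Algebra F (AA F g₁ g₂) :=
  inferInstanceAs (Algebra F (PowerSeries (PC.R2 F) ⧸ Ideal.span {g₁, g₂}))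

/-- the projection -/
noncomputable def pr : PowerSeries (PC.R2 F) →+* AA F g₁ g₂ :=
  Ideal.Quotient.mk (Ideal.span {g₁, g₂})

noncomputable instance : Algebra (PowerSeries F) (AA F g₁ g₂) :=
  RingHom.toAlgebra ((pr F g₁ g₂).comp (wi F))

theorem algebraMap_AA (c : PowerSeries F) :
    algebraMap (PowerSeries F) (AA F g₁ g₂) c = pr F g₁ g₂ (wi F c) := rfl

theorem pr_surjective : Function.Surjective (pr F g₁ g₂) := Ideal.Quotient.mk_surjective

theorem pr_eq_zero {x : PowerSeries (PC.R2 F)} : pr F g₁ g₂ x = 0 ↔ x ∈ Ideal.span {g₁, g₂} :=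
  Ideal.Quotient.eq_zero_iff_mem

theorem algebraMap_F_AA (c : F) : algebraMap F (AA F g₁ g₂) c =
    pr F g₁ g₂ (PowerSeries.C (MvPowerSeries.C c)) := by
  have h1 : algebraMap F (AA F g₁ g₂) c =
    pr F g₁ g₂ (algebraMap F (PowerSeries (PC.R2 F)) c) := rfl
  rw [h1, algMap_eq]

instance : IsScalarTower F (PowerSeries F) (AA F g₁ g₂) := by
  refine IsScalarTower.of_algebraMap_eq fun c => ?_
  rw [algebraMap_AA, algebraMap_F_AA]
  congr 1
  have : algebraMap F (PowerSeries F) c = PowerSeries.C c := rfl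
  rw [this, wi, PowerSeries.map_C]

/-- lengths over `AA` -/
theorem length_AA (u : PowerSeries (PC.R2 F)) :
    Module.length F (AA F g₁ g₂ ⧸ Ideal.span {pr F g₁ g₂ u}) =
      len F (Ideal.span {g₁, g₂, u}) := by
  have h1 : Ideal.span {g₁, g₂, u} = Ideal.span {g₁, g₂} ⊔ Ideal.span {u} := by
    rw [← Ideal.span_union]
    congr 1
    ext x
    simp only [Set.mem_insert_iff, Set.mem_singleton_iff, Set.mem_union]
    tauto
  have h2 : Ideal.span {pr F g₁ g₂ u} =
      (Ideal.span {u}).map (Ideal.Quotient.mk (Ideal.span {g₁, g₂})) := by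
    rw [Ideal.map_span, Set.image_singleton]
    rfl
  unfold len
  rw [h1, h2]
  exact (DoubleQuot.quotQuotEquivQuotSupₐ F (Ideal.span {g₁, g₂}) (Ideal.span {u})).toLinearEquiv.length_eq

/-- the image of `W` -/
theorem algebraMap_X : algebraMap (PowerSeries F) (AA F g₁ g₂) PowerSeries.X =
    pr F g₁ g₂ PowerSeries.X := by
  rw [algebraMap_AA, wi, PowerSeries.map_X]

end ALG63

open ALG63 FGT63

theorem alg (np : PC.NpStatement) (cop : CopStatement) (spm : SpmStatement) : AlgStatement := by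
  classical
  intro F _ N hgood g₁ g₂ u h hN hfin hχ
  obtain ⟨a, ha⟩ : ∃ a, a = PowerSeries.constantCoeff g₁ := ⟨_, rfl⟩
  obtain ⟨b, hb⟩ : ∃ b, b = PowerSeries.constantCoeff g₂ := ⟨_, rfl⟩
  rw [← ha, ← hb] at hN ⊢
  have hNt : len F (Ideal.span {a, b}) ≠ ⊤ := ne_top_of_le_ne_top (ENat.natCast_ne_top N) hN
  -- trivial case
  by_cases hI : Ideal.span {a, b} = ⊤
  · have h1 : Ideal.span {g₁, g₂, u} = ⊤ := by
      rw [Ideal.eq_top_iff_one, Ideal.mem_span_pair] at hI
      obtain ⟨s, t, hst⟩ := hI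
      have h2 : IsUnit (PowerSeries.C s * g₁ + PowerSeries.C t * g₂) := by
        rw [PowerSeries.isUnit_iff_constantCoeff, map_add, map_mul, map_mul,
          PowerSeries.constantCoeff_C, PowerSeries.constantCoeff_C, ← ha, ← hb, hst]
        exact isUnit_one
      refine Ideal.eq_top_of_isUnit_mem _ ?_ h2
      refine Ideal.add_mem _ (Ideal.mul_mem_left _ _ (Ideal.subset_span ?_))
        (Ideal.mul_mem_left _ _ (Ideal.subset_span ?_)) <;> simp
    rw [h1, AB.H21.len_top]
    exact bot_le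
  -- `a`, `b`
  have ha0 : a ≠ 0 := by
    intro h0
    obtain ⟨c, hc, -⟩ := cop F a b hNt 1 0 (by rw [h0]; ring)
    apply hI
    rw [Ideal.eq_top_iff_one, hc]
    exact Ideal.mul_mem_left _ _ (Ideal.subset_span (by simp))
  have hreg := regular g₁ g₂ (fun s hs => by
      rw [← ha] at hs
      exact (mul_eq_zero.1 hs).resolve_right ha0) (fun s t hst => by
      rw [← ha, ← hb] at hst
      obtain ⟨c, -, hc⟩ := cop F a b hNt (-t) s (by rw [hst]; ring)
      exact ⟨-c, by rw [← ha, hc]; ring⟩)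
  -- a basis of `S / (a, b)`
  have hfd : Module.Finite F (PC.R2 F ⧸ Ideal.span {a, b}) := by
    have h1 := Module.length_ne_top_iff.1 hNt
    have h2 := isFiniteLength_iff_isNoetherian_isArtinian.1 h1
    have := h2.1
    exact Module.IsNoetherian.finite F _
  obtain ⟨r, hr⟩ : ∃ r, r = Module.finrank F (PC.R2 F ⧸ Ideal.span {a, b}) := ⟨_, rfl⟩
  have hrN : r ≤ N := by
    unfold len at hN
    rw [Module.length_eq_finrank, ← hr] at hN
    exact_mod_cast hN
  let v := Module.finBasisOfFinrankEq F (PC.R2 F ⧸ Ideal.span {a, b}) hr.symm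
  choose e he using fun i => Ideal.Quotient.mk_surjective (v i)
  let g : Fin 2 → PowerSeries (PC.R2 F) := ![g₁, g₂]
  have hdec : ∀ s : PC.R2 F, ∃ (c : Fin r → F) (b' : Fin 2 → PC.R2 F),
      s = ∑ i, algebraMap F (PC.R2 F) (c i) * e i +
        ∑ l, b' l * PowerSeries.constantCoeff (g l) := by
    intro s
    have h1 := v.sum_repr (Ideal.Quotient.mk (Ideal.span {a, b}) s)
    have h2 : s - ∑ i, algebraMap F (PC.R2 F) (v.repr (Ideal.Quotient.mk _ s) i) * e i ∈
        Ideal.span {a, b} := by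
      rw [← Ideal.Quotient.eq_zero_iff_mem, map_sub, map_sum, sub_eq_zero]
      nth_rewrite 1 [← h1]
      refine Finset.sum_congr rfl fun i _ => ?_
      rw [map_mul, he]
      exact Algebra.smul_def (R := F) (A := PC.R2 F ⧸ Ideal.span {a, b}) _ _
    obtain ⟨x, y, hxy⟩ := Ideal.mem_span_pair.1 h2
    refine ⟨fun i => v.repr (Ideal.Quotient.mk _ s) i, ![x, y], ?_⟩
    rw [Fin.sum_univ_two (f := fun l => (![x, y] : Fin 2 → PC.R2 F) l *
      PowerSeries.constantCoeff (g l))]
    show s = _ + (x * PowerSeries.constantCoeff g₁ + y * PowerSeries.constantCoeff g₂)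
    rw [← ha, ← hb, hxy]
    ring
  have hg0 : ∀ l, pr F g₁ g₂ (g l) = 0 := by
    intro l
    rw [pr_eq_zero]
    apply Ideal.subset_span
    fin_cases l
    · exact Or.inl rfl
    · exact Or.inr rfl
  have hspan := span_eq_top e g hdec (pr F g₁ g₂) (pr_surjective F g₁ g₂) hg0
    (fun c => rfl)
  have hAfin : Module.Finite (PowerSeries F) (AA F g₁ g₂) :=
    ⟨⟨Finset.univ.image fun i => pr F g₁ g₂ (PowerSeries.C (e i)), by
      rw [Finset.coe_image, Finset.coe_univ, Set.image_univ]
      exact hspan⟩⟩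
  have hrank : Module.finrank (PowerSeries F) (AA F g₁ g₂) ≤ N := by
    refine le_trans ?_ hrN
    have h1 := finrank_range_le_card (R := PowerSeries F)
      (fun i : Fin r => pr F g₁ g₂ (PowerSeries.C (e i)))
    rw [Set.finrank, hspan, finrank_top, Fintype.card_fin] at h1
    exact h1
  -- torsion-free
  have hW : ∀ (m : ℕ) (z : AA F g₁ g₂), pr F g₁ g₂ PowerSeries.X ^ m * z = 0 → z = 0 := by
    intro m
    induction m with
    | zero => intro z hz; simpa using hz
    | succ m ih =>
      intro z hz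
      obtain ⟨G, rfl⟩ := pr_surjective F g₁ g₂ z
      rw [pow_succ, mul_assoc, ← map_mul] at hz
      have h1 := ih _ hz
      rw [pr_eq_zero] at h1 ⊢
      exact hreg G h1
  have htf : ∀ (c : PowerSeries F) (z : AA F g₁ g₂), c • z = 0 → c = 0 ∨ z = 0 := by
    intro c z hcz
    by_cases hc : c = 0
    · exact Or.inl hc
    right
    have h1 : c ∣ PowerSeries.X ^ c.order.toNat := by
      apply dvd_of_order_le hc
      rw [PowerSeries.order_X_pow, ENat.natCast_toNat]
      rw [Ne, PowerSeries.order_eq_top]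
      exact hc
    obtain ⟨d, hd⟩ := h1
    apply hW c.order.toNat
    rw [← algebraMap_X, ← map_pow, hd, mul_comm c d, map_mul, mul_assoc, ← Algebra.smul_def c z,
      hcz, mul_zero]
  -- generation
  obtain ⟨M, hM⟩ := spm F (Ideal.span {a, b}) hNt
  have hgen : Algebra.adjoin (PowerSeries F) {pr F g₁ g₂ (PowerSeries.C (X 0)),
      pr F g₁ g₂ (PowerSeries.C (X 1))} = ⊤ := by
    have hdec' : ∀ s : PC.R2 F, ∃ (c : Fin M × Fin M → F) (b' : Fin 2 → PC.R2 F),
        s = ∑ q, algebraMap F (PC.R2 F) (c q) *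
          ((X 0 : PC.R2 F) ^ (q.1 : ℕ) * (X 1 : PC.R2 F) ^ (q.2 : ℕ)) +
          ∑ l, b' l * PowerSeries.constantCoeff (g l) := by
      intro s
      obtain ⟨c, hc⟩ := hM s
      obtain ⟨x, y, hxy⟩ := Ideal.mem_span_pair.1 hc
      refine ⟨fun q => c q.1 q.2, ![x, y], ?_⟩
      rw [Fin.sum_univ_two (f := fun l => (![x, y] : Fin 2 → PC.R2 F) l *
        PowerSeries.constantCoeff (g l)), Fintype.sum_prod_type]
      show s = _ + (x * PowerSeries.constantCoeff g₁ + y * PowerSeries.constantCoeff g₂)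
      rw [← ha, ← hb, hxy]
      have h1 : ∀ i j : Fin M, algebraMap F (PC.R2 F) (c i j) *
          ((X 0 : PC.R2 F) ^ (i : ℕ) * (X 1 : PC.R2 F) ^ (j : ℕ)) =
          MvPowerSeries.C (c i j) * (X 0 : PC.R2 F) ^ (i : ℕ) * (X 1 : PC.R2 F) ^ (j : ℕ) := by
        intro i j
        rw [mul_assoc]
        rfl
      simp only [h1]
      ring
    have hspan' := span_eq_top (fun q : Fin M × Fin M =>
      ((X 0 : PC.R2 F) ^ (q.1 : ℕ) * (X 1 : PC.R2 F) ^ (q.2 : ℕ))) g hdec'
      (pr F g₁ g₂) (pr_surjective F g₁ g₂) hg0 (fun c => rfl)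
    rw [eq_top_iff]
    intro z _
    have hz : z ∈ Submodule.span (PowerSeries F) (Set.range fun q : Fin M × Fin M =>
      pr F g₁ g₂ (PowerSeries.C ((X 0 : PC.R2 F) ^ (q.1 : ℕ) * (X 1 : PC.R2 F) ^ (q.2 : ℕ)))) := by
      rw [hspan']; trivial
    have hle : Submodule.span (PowerSeries F) (Set.range fun q : Fin M × Fin M =>
        pr F g₁ g₂ (PowerSeries.C ((X 0 : PC.R2 F) ^ (q.1 : ℕ) * (X 1 : PC.R2 F) ^ (q.2 : ℕ)))) ≤
        Subalgebra.toSubmodule (Algebra.adjoin (PowerSeries F) {pr F g₁ g₂ (PowerSeries.C (X 0)),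
          pr F g₁ g₂ (PowerSeries.C (X 1))}) := by
      rw [Submodule.span_le]
      rintro _ ⟨q, rfl⟩
      show pr F g₁ g₂ (PowerSeries.C ((X 0 : PC.R2 F) ^ (q.1 : ℕ) *
        (X 1 : PC.R2 F) ^ (q.2 : ℕ))) ∈ Algebra.adjoin (PowerSeries F)
          {pr F g₁ g₂ (PowerSeries.C (X 0)), pr F g₁ g₂ (PowerSeries.C (X 1))}
      rw [map_mul, map_mul, map_pow, map_pow, map_pow, map_pow]
      exact mul_mem (pow_mem (Algebra.subset_adjoin (by simp)) _)
        (pow_mem (Algebra.subset_adjoin (by simp)) _)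
    exact hle hz
  -- the comparison
  have key := th np F N hgood (AA F g₁ g₂) htf hrank _ _ hgen (pr F g₁ g₂ u)
    (pr F g₁ g₂ (PowerSeries.X * h)) (by
    intro n hn χ hnF hc
    have hc' : ∀ c, (χ.comp (pr F g₁ g₂)) (wi F c) = PC.ex F n hn c := fun c => hc c
    have hg₁ : (χ.comp (pr F g₁ g₂)) g₁ = 0 := by
      rw [RingHom.comp_apply, (pr_eq_zero F g₁ g₂).2 (Ideal.subset_span (by simp)), map_zero]
    have hg₂ : (χ.comp (pr F g₁ g₂)) g₂ = 0 := by
      rw [RingHom.comp_apply, (pr_eq_zero F g₁ g₂).2 (Ideal.subset_span (by simp)), map_zero]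
    have hh : (χ.comp (pr F g₁ g₂)) h ≠ 0 := by
      intro h0
      -- the quotient by `(g₁, g₂, h)` maps onto something infinite dimensional
      apply not_finite F
      have hfd' : Module.Finite F (PowerSeries (PC.R2 F) ⧸ Ideal.span {g₁, g₂, h}) := by
        have h1 := Module.length_ne_top_iff.1 hfin
        have h2 := isFiniteLength_iff_isNoetherian_isArtinian.1 h1
        have := h2.1
        exact Module.IsNoetherian.finite F _
      have hker : ∀ z ∈ Ideal.span {g₁, g₂, h}, (χ.comp (pr F g₁ g₂)) z = 0 := by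
        intro z hz
        have hle : Ideal.span {g₁, g₂, h} ≤ RingHom.ker (χ.comp (pr F g₁ g₂)) := by
          rw [Ideal.span_le]
          intro y hy
          simp only [Set.mem_insert_iff, Set.mem_singleton_iff] at hy
          rcases hy with rfl | rfl | rfl
          · exact hg₁
          · exact hg₂
          · exact h0
        exact hle hz
      let m : (PowerSeries (PC.R2 F) ⧸ Ideal.span {g₁, g₂, h}) →+* PowerSeries F :=
        Ideal.Quotient.lift _ (χ.comp (pr F g₁ g₂)) hker
      have hm : ∀ c : F, m (algebraMap F _ c) = algebraMap F (PowerSeries F) c := by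
        intro c
        have h1 : algebraMap F (PowerSeries (PC.R2 F) ⧸ Ideal.span {g₁, g₂, h}) c =
          Ideal.Quotient.mk _ (wi F (PowerSeries.C c)) := by
          have h2 : algebraMap F (PowerSeries (PC.R2 F) ⧸ Ideal.span {g₁, g₂, h}) c =
            Ideal.Quotient.mk _ (algebraMap F (PowerSeries (PC.R2 F)) c) := rfl
          rw [h2, wi, PowerSeries.map_C, algMap_eq]
        rw [h1]
        show (χ.comp (pr F g₁ g₂)) (wi F (PowerSeries.C c)) = _
        rw [hc']
        exact (PowerSeries.expand n hn : PowerSeries F →ₐ[F] PowerSeries F).commutes c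
      let ma : (PowerSeries (PC.R2 F) ⧸ Ideal.span {g₁, g₂, h}) →ₐ[F] PowerSeries F :=
        ⟨m, hm⟩
      have hle : LinearMap.range (PowerSeries.expand n hn :
          PowerSeries F →ₐ[F] PowerSeries F).toLinearMap ≤ LinearMap.range ma.toLinearMap := by
        rintro _ ⟨c, rfl⟩
        exact ⟨Ideal.Quotient.mk _ (wi F c), hc' c⟩
      have hf1 : Module.Finite F (LinearMap.range ma.toLinearMap) := inferInstance
      have hf2 : Module.Finite F (LinearMap.range (PowerSeries.expand n hn :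
          PowerSeries F →ₐ[F] PowerSeries F).toLinearMap) :=
        Module.Finite.of_injective (Submodule.inclusion hle) (Submodule.inclusion_injective hle)
      have hinj : Function.Injective (PowerSeries.expand n hn :
          PowerSeries F →ₐ[F] PowerSeries F).toLinearMap := by
        intro x y hxy
        have hxy' : PowerSeries.expand n hn x = PowerSeries.expand n hn y := hxy
        ext i
        have h3 := congrArg (PowerSeries.coeff (n * i)) hxy'
        rwa [PowerSeries.coeff_expand_mul, PowerSeries.coeff_expand_mul] at h3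
      exact Module.Finite.equiv (LinearEquiv.ofInjective _ hinj).symm
    have hord := hχ n hn hnF (χ.comp (pr F g₁ g₂)) hc' hg₁ hg₂ hh
    have hX : χ (pr F g₁ g₂ PowerSeries.X) = PowerSeries.X ^ n := by
      rw [← algebraMap_X, hc]
      exact PowerSeries.expand_X n hn
    have hw : χ (pr F g₁ g₂ (PowerSeries.X * h)) =
        PowerSeries.X ^ n * (χ.comp (pr F g₁ g₂)) h := by
      rw [map_mul, map_mul, hX]
      rfl
    rw [hw]
    have hne : PowerSeries.X ^ n * (χ.comp (pr F g₁ g₂)) h ≠ 0 :=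
      mul_ne_zero (pow_ne_zero _ PowerSeries.X_ne_zero) hh
    refine ⟨hne, ?_⟩
    have hord' : ((χ.comp (pr F g₁ g₂)) u).order ≤
        (PowerSeries.X ^ n * (χ.comp (pr F g₁ g₂)) h).order := by
      rw [PowerSeries.order_mul, PowerSeries.order_X_pow, add_comm]
      exact hord
    refine dvd_of_order_le ?_ hord'
    intro hu0
    have hu1 : (χ.comp (pr F g₁ g₂)) u = 0 := hu0
    rw [hu1, PowerSeries.order_zero, top_le_iff, PowerSeries.order_eq_top] at hord'
    exact hne hord')
  rw [length_AA, length_AA] at key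
  refine key.trans ?_
  -- `len (g₁, g₂, X h) ≤ len (g₁, g₂, X) + len (g₁, g₂, h)`
  have hsup : ∀ y : PowerSeries (PC.R2 F), Ideal.span {g₁, g₂, y} =
      Ideal.span {g₁, g₂} ⊔ Ideal.span {y} := by
    intro y
    rw [← Ideal.span_union]
    congr 1
    ext x
    simp only [Set.mem_insert_iff, Set.mem_singleton_iff, Set.mem_union]
    tauto
  have h1 := AB.H21.stp (k := F) (Ideal.span {g₁, g₂}) PowerSeries.X h
  rw [← hsup, ← hsup, ← hsup] at h1
  refine h1.trans ?_
  rw [add_comm]
  apply add_le_add le_rfl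
  -- `len (g₁, g₂, X) ≤ len (a, b)`
  let q : PC.R2 F →+* (PowerSeries (PC.R2 F) ⧸ Ideal.span {g₁, g₂, PowerSeries.X}) :=
    (Ideal.Quotient.mk _).comp PowerSeries.C
  have hq : ∀ z ∈ Ideal.span {a, b}, q z = 0 := by
    have hmod : ∀ y : PowerSeries (PC.R2 F), y ∈ Ideal.span {g₁, g₂, PowerSeries.X} →
        q (PowerSeries.constantCoeff y) = 0 := by
      intro y hy
      show Ideal.Quotient.mk _ (PowerSeries.C (PowerSeries.constantCoeff y)) = 0
      rw [Ideal.Quotient.eq_zero_iff_mem]
      obtain ⟨y', hy'⟩ : PowerSeries.X ∣ y - PowerSeries.C (PowerSeries.constantCoeff y) := by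
        rw [PowerSeries.X_dvd_iff, map_sub, PowerSeries.constantCoeff_C, sub_self]
      have e1 : PowerSeries.C (PowerSeries.constantCoeff y) = y - PowerSeries.X * y' := by
        rw [← hy']; ring
      rw [e1]
      exact Ideal.sub_mem _ hy (Ideal.mul_mem_right _ _ (Ideal.subset_span (by simp)))
    intro z hz
    have hle : Ideal.span {a, b} ≤ RingHom.ker q := by
      rw [Ideal.span_le]
      intro y hy
      simp only [Set.mem_insert_iff, Set.mem_singleton_iff] at hy
      rcases hy with rfl | rfl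
      · rw [ha]
        exact hmod g₁ (Ideal.subset_span (by simp))
      · rw [hb]
        exact hmod g₂ (Ideal.subset_span (by simp))
    exact hle hz
  let q' : (PC.R2 F ⧸ Ideal.span {a, b}) →+*
      (PowerSeries (PC.R2 F) ⧸ Ideal.span {g₁, g₂, PowerSeries.X}) := Ideal.Quotient.lift _ q hq
  have hq' : ∀ c : F, q' (algebraMap F _ c) = algebraMap F _ c := by
    intro c
    have e1 : q' (algebraMap F _ c) = Ideal.Quotient.mk _ (PowerSeries.C (MvPowerSeries.C c)) :=
      rfl
    have e2 : algebraMap F (PowerSeries (PC.R2 F) ⧸ Ideal.span {g₁, g₂, PowerSeries.X}) c =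
      Ideal.Quotient.mk _ (algebraMap F (PowerSeries (PC.R2 F)) c) := rfl
    rw [e1, e2, algMap_eq]
  let qa : (PC.R2 F ⧸ Ideal.span {a, b}) →ₐ[F]
      (PowerSeries (PC.R2 F) ⧸ Ideal.span {g₁, g₂, PowerSeries.X}) := ⟨q', hq'⟩
  refine Module.length_le_of_surjective qa.toLinearMap ?_
  intro y
  obtain ⟨y, rfl⟩ := Ideal.Quotient.mk_surjective y
  refine ⟨Ideal.Quotient.mk _ (PowerSeries.constantCoeff y), ?_⟩
  show Ideal.Quotient.mk _ (PowerSeries.C (PowerSeries.constantCoeff y)) = Ideal.Quotient.mk _ y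
  rw [Ideal.Quotient.eq]
  obtain ⟨y', hy'⟩ : PowerSeries.X ∣ y - PowerSeries.C (PowerSeries.constantCoeff y) := by
    rw [PowerSeries.X_dvd_iff, map_sub, PowerSeries.constantCoeff_C, sub_self]
  have e1 : PowerSeries.C (PowerSeries.constantCoeff y) - y = PowerSeries.X * (-y') := by
    linear_combination -hy'
  rw [e1]
  exact Ideal.mul_mem_right _ _ (Ideal.subset_span (by simp))

end Pool.Agent.DU5.TE
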